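import Pool.Agent.P8H55.SM.LFc
import Pool.Agent.R709.SM.B1
import Pool.Agent.R709.SM.B2

/-!
MP_fc2b6d_co, Q1: the locally finite graphs `H` such that every graph `G` has a strongly maximal
`H`-free edge set.
-/

open SimpleGraph

namespace Pool.Agent.Results.MP_fc2b6d_co.LocallyFiniteGraphs

/-- `F` is an `H`-free set of edges of `G`: the spanning subgraph `(V, F)` contains no subgraph
isomorphic to `H`. -/
def IsFreeEdgeSet {W V : Type} (H : SimpleGraph W) (G : SimpleGraph V) (F : Set (Sym2 V)) : Prop :=
  F ⊆ G.edgeSet ∧ ¬ H ⊑ SimpleGraph.fromEdgeSet F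

/-- `F` is a strongly maximal `H`-free set of edges of `G`: `|I \ F| ≤ |F \ I|` (as cardinals) for
all `H`-free sets `I` of edges of `G`. -/
def IsStronglyMaximal {W V : Type} (H : SimpleGraph W) (G : SimpleGraph V)
    (F : Set (Sym2 V)) : Prop :=
  IsFreeEdgeSet H G F ∧
    ∀ I : Set (Sym2 V), IsFreeEdgeSet H G I → Cardinal.mk ↥(I \ F) ≤ Cardinal.mk ↥(F \ I)

/-- Every graph `G` has a strongly maximal `H`-free set of edges. -/
def AlwaysExists {W : Type} (H : SimpleGraph W) : Prop :=
  ∀ (V : Type) (G : SimpleGraph V), ∃ F : Set (Sym2 V), IsStronglyMaximal H G F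

/-- The degree of the vertex `v` of `H`, a cardinal. -/
def deg {W : Type} (H : SimpleGraph W) (v : W) : Cardinal := Cardinal.mk ↥(H.neighborSet v)

theorem good_iff {W : Type} (H : SimpleGraph W) : AlwaysExists H ↔ R709.SM.Good H := by
  have hedge : ∀ (V : Type) (G : SimpleGraph V) (I : Set (Sym2 V)), I ⊆ G.edgeSet →
      fromEdgeSet I ≤ G ∧ (fromEdgeSet I).edgeSet = I := by
    intro V G I hI
    constructor
    · intro a b hab
      rw [fromEdgeSet_adj] at hab
      exact hI hab.1
    · rw [edgeSet_fromEdgeSet]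
      ext e
      constructor
      · exact fun he => he.1
      · exact fun he => ⟨he, fun hd => G.not_isDiag_of_mem_edgeSet (hI he) hd⟩
  constructor
  · intro h V G
    obtain ⟨F, ⟨hF, hfree⟩, hmax⟩ := h V G
    obtain ⟨h1, h2⟩ := hedge V G F hF
    refine ⟨fromEdgeSet F, h1, hfree, ?_⟩
    intro I hI hIfree
    rw [h2]
    refine hmax I.edgeSet ⟨edgeSet_mono hI, ?_⟩
    rwa [fromEdgeSet_edgeSet]
  · intro h V G
    obtain ⟨F, hF, hfree, hmax⟩ := h V G
    refine ⟨F.edgeSet, ⟨edgeSet_mono hF, by rwa [fromEdgeSet_edgeSet]⟩, ?_⟩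
    rintro I ⟨hI, hIfree⟩
    obtain ⟨h1, h2⟩ := hedge V G I hI
    have h3 := hmax (fromEdgeSet I) h1 hIfree
    rwa [h2] at h3

theorem nonempty_of {W : Type} (H : SimpleGraph W) (hH : AlwaysExists H) : H.edgeSet.Nonempty := by
  by_contra hne
  rw [Set.not_nonempty_iff_eq_empty] at hne
  obtain ⟨F, ⟨-, hfree⟩, -⟩ := hH W ⊥
  apply hfree
  refine Forests.contained_of id Function.injective_id ?_
  intro a b hab
  have : s(a, b) ∈ H.edgeSet := hab
  rw [hne] at this
  exact this.elim

theorem only_if {W : Type} (H : SimpleGraph W) (hH : AlwaysExists H) (κ : Cardinal)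
    (hfin : ∀ v, κ ≤ deg H v → {w | H.Adj v w ∧ κ ≤ deg H w}.Finite) :
    ∃ v, ∀ a b, H.Adj a b → κ ≤ deg H a → κ ≤ deg H b → v = a ∨ v = b := by
  set U : Set W := {w | κ ≤ deg H w} with hU
  by_cases hedge : ∃ a b : U, H.Adj a b
  · have hlf : ∀ v : U, ((H.induce U).neighborSet v).Finite := by
      intro v
      refine Set.Finite.of_finite_image ((hfin v.1 v.2).subset ?_)
        (f := (Subtype.val : U → W)) Subtype.val_injective.injOn
      rintro _ ⟨w, hw, rfl⟩
      exact ⟨hw, w.2⟩
    by_cases hs : Forests.IsStar (H.induce U)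
    · obtain ⟨v, hv⟩ := hs
      refine ⟨v.1, fun a b hab ha hb => ?_⟩
      rcases hv ⟨a, ha⟩ ⟨b, hb⟩ hab with h | h
      · exact .inl (congrArg Subtype.val h).symm
      · exact .inr (congrArg Subtype.val h).symm
    · exfalso
      have hne : Nonempty U := by
        obtain ⟨a, -⟩ := hedge
        exact ⟨a⟩
      have h1 := Pool.Agent.P8H55.SM.lf_fail hlf hne hs
      obtain ⟨V, G, hG⟩ :=
        (Pool.Agent.P8H55.SM.deg_card_step κ U (fun w => Iff.rfl) hedge h1).spec
      exact hG (hH V G)
  · obtain ⟨e, -⟩ := nonempty_of H hH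
    induction e with
    | _ x y => exact ⟨x, fun a b hab ha hb => absurd ⟨⟨a, ha⟩, ⟨b, hb⟩, hab⟩ hedge⟩

/-- Adding infinitely many isolated vertices. -/
theorem add_isolated {W : Type} [Infinite W] (H : SimpleGraph W) (W0 : Set W) (hW0 : W0.Finite)
    (h0 : ∀ a b, H.Adj a b → a ∈ W0) (hgood : R709.SM.Good (H.induce W0)) : R709.SM.Good H := by
  classical
  intro V G
  by_cases hcard : Cardinal.mk W ≤ Cardinal.mk V
  · have key : ∀ F : SimpleGraph V, H ⊑ F ↔ H.induce W0 ⊑ F := by
      intro F
      constructor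
      · rintro ⟨f⟩
        exact Forests.contained_of (fun a : W0 => f a.1)
          (fun a b hab => Subtype.ext (f.injective hab)) (fun a b hab => f.toHom.map_adj hab)
      · rintro ⟨f⟩
        have hVinf : Infinite V := by
          rw [Cardinal.infinite_iff]
          exact (Cardinal.aleph0_le_mk W).trans hcard
        have : Finite W0 := hW0
        have hR : (Set.range f).Finite := Set.finite_range f
        have hVc : Cardinal.mk ↥(Set.range f)ᶜ = Cardinal.mk V :=
          Cardinal.mk_compl_of_infinite _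
            ((Cardinal.lt_aleph0_iff_set_finite.2 hR).trans_le (Cardinal.aleph0_le_mk V))
        have hle : Cardinal.mk ↥W0ᶜ ≤ Cardinal.mk ↥(Set.range f)ᶜ := by
          rw [hVc]
          exact (Cardinal.mk_set_le _).trans hcard
        obtain ⟨g⟩ := hle
        refine Forests.contained_of
          (fun a => if h : a ∈ W0 then f ⟨a, h⟩ else (g ⟨a, h⟩).1) ?_ ?_
        · intro a b hab
          by_cases ha : a ∈ W0 <;> by_cases hb : b ∈ W0
          · simp only [dif_pos ha, dif_pos hb] at hab
            exact Subtype.mk.inj (f.injective hab)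
          · simp only [dif_pos ha, dif_neg hb] at hab
            exact absurd ⟨⟨a, ha⟩, hab⟩ (g ⟨b, hb⟩).2
          · simp only [dif_neg ha, dif_pos hb] at hab
            exact absurd ⟨⟨b, hb⟩, hab.symm⟩ (g ⟨a, ha⟩).2
          · simp only [dif_neg ha, dif_neg hb] at hab
            exact Subtype.mk.inj (g.injective (Subtype.ext hab))
        · intro a b hab
          have ha := h0 a b hab
          have hb := h0 b a hab.symm
          simp only [dif_pos ha, dif_pos hb]
          exact f.toHom.map_adj (show (H.induce W0).Adj ⟨a, ha⟩ ⟨b, hb⟩ from hab)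
    obtain ⟨F, hF, hfree, hmax⟩ := hgood V G
    refine ⟨F, hF, fun h => hfree ((key F).1 h), fun I hI hIfree => hmax I hI ?_⟩
    exact fun h => hIfree ((key I).2 h)
  · refine ⟨G, le_rfl, ?_, ?_⟩
    · rintro ⟨f⟩
      exact hcard (Cardinal.mk_le_of_injective f.injective)
    · intro I hI _
      have : I.edgeSet \ G.edgeSet = ∅ := by
        rw [Set.sdiff_eq_empty]
        exact edgeSet_mono hI
      rw [this, Cardinal.mk_eq_zero]
      exact zero_le

theorem if_star (hP : AlwaysExists (pathGraph 3)) {W : Type} (H : SimpleGraph W)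
    (hlf : ∀ v, (H.neighborSet v).Finite) (hne : H.edgeSet.Nonempty)
    (hv : ∃ v, ∀ e ∈ H.edgeSet, v ∈ e) : AlwaysExists H := by
  classical
  obtain ⟨e, he⟩ := hne
  obtain ⟨v, hv⟩ := hv
  rw [good_iff] at hP ⊢
  have hc : ∀ a b, H.Adj a b → a = v ∨ b = v := by
    intro a b hab
    have h := hv s(a, b) hab
    rw [Sym2.mem_iff] at h
    rcases h with h | h
    · exact .inl h.symm
    · exact .inr h.symm
  have hN : ∃ w, H.Adj v w := by
    induction e with
    | _ a b =>
      have hab : H.Adj a b := he
      rcases hc a b hab with h | h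
      · exact ⟨b, h ▸ hab⟩
      · exact ⟨a, h ▸ hab.symm⟩
  rcases finite_or_infinite W with hfin | hinf
  · exact R709.SM.b2 (R709.SM.b1 (R709.SM.b3 hP)) W H v hN hc
  · refine add_isolated H (insert v (H.neighborSet v)) ((hlf v).insert v) ?_ ?_
    · intro a b hab
      rcases hc a b hab with h | h
      · exact .inl h
      · exact .inr (h ▸ hab.symm)
    · have : Finite ↥(insert v (H.neighborSet v)) := (hlf v).insert v
      obtain ⟨w, hw⟩ := hN
      refine R709.SM.b2 (R709.SM.b1 (R709.SM.b3 hP)) _ _ ⟨v, .inl rfl⟩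
        ⟨⟨w, .inr hw⟩, hw⟩ ?_
      intro a b hab
      rcases hc a.1 b.1 hab with h | h
      · exact .inl (Subtype.ext h)
      · exact .inr (Subtype.ext h)

/-- (1) Let `H` be any graph, finite or infinite, of any cardinality, such that every graph `G` has a
strongly maximal `H`-free edge set. Then `H` has an edge and, for every cardinal `κ` such that the
subgraph of `H` induced by the vertices of degree at least `κ` is locally finite, all edges of this
subgraph have a common vertex; in particular (`κ = 0`), if `H` is locally finite, then all edges of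
`H` have a common vertex. (2) Conversely, if every graph has a strongly maximal matching (this is
Aharoni's theorem, the case of the path with two edges), then a locally finite graph `H` has the
property if and only if it has an edge and all its edges have a common vertex. -/
theorem result :
    (∀ (W : Type) (H : SimpleGraph W), AlwaysExists H →
      H.edgeSet.Nonempty ∧ ∀ κ : Cardinal,
        (∀ v, κ ≤ deg H v → {w | H.Adj v w ∧ κ ≤ deg H w}.Finite) →
        ∃ v, ∀ a b, H.Adj a b → κ ≤ deg H a → κ ≤ deg H b → v = a ∨ v = b) ∧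
    (AlwaysExists (pathGraph 3) → ∀ (W : Type) (H : SimpleGraph W),
      (∀ v, (H.neighborSet v).Finite) →
      (AlwaysExists H ↔ H.edgeSet.Nonempty ∧ ∃ v, ∀ e ∈ H.edgeSet, v ∈ e)) := by
  refine ⟨fun W H hH => ⟨nonempty_of H hH, fun κ hκ => only_if H hH κ hκ⟩,
    fun hP W H hlf => ⟨fun hH => ⟨nonempty_of H hH, ?_⟩, fun h => if_star hP H hlf h.1 h.2⟩⟩
  obtain ⟨v, hv⟩ := only_if H hH 0 (fun v _ => (hlf v).subset fun w hw => hw.1)
  refine ⟨v, fun e => ?_⟩
  induction e with
  | _ a b =>
    intro he
    rcases hv a b he zero_le zero_le with h | h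
    · exact h ▸ Sym2.mem_mk_left _ _
    · exact h ▸ Sym2.mem_mk_right _ _

end Pool.Agent.Results.MP_fc2b6d_co.LocallyFiniteGraphs
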